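import Pool.Agent.H153Z.PlanarMain

set_option autoImplicit false

namespace Pool.Agent.Results.MP_f3a7de_an.AHullLarger

open Pool.Agent.H153Z.Planar

/-- There are a strictly polyconvex `C¹` function `f` on `8 × 2` matrices and a radius `R > 0` such
that the rank-one convex hull of `K_R` contains a matrix outside `K_f` (so outside `K_R`). -/
theorem result : ∃ f : (Fin 8 → Fin 2 → ℝ) → ℝ, StrictlyPolyconvex f ∧ ∃ R : ℝ, 0 < R ∧
    ∃ A : Big 8, A ∈ rcHull (KR f R) ∧ A ∉ K f :=
  Pool.Agent.H153Z.PlanarMain.main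

end Pool.Agent.Results.MP_f3a7de_an.AHullLarger
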